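import Pool.Agent.helper17.CH.SpecQ

/-!
# Project CH (MP_5628fe_nt), row TRI: sums over pairs of primes
-/

set_option autoImplicit false

namespace Pool.Agent.CH

open Finset ArithmeticFunction MeasureTheory

/-- the integral of the linear function -/
theorem TRI_int (E c : ℝ) (hE : 1 ≤ E) (hc : 0 ≤ c) :
    ∫ t in (1 : ℝ)..E, (E + c - t) / t ≤ (E - 1) ^ 2 / 2 + c * (E - 1) := by
  have h1 : ∫ t in (1 : ℝ)..E, (E + c - t) / t ≤ ∫ t in (1 : ℝ)..E, (E + c - t) := by
    apply intervalIntegral.integral_mono_on hE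
    · apply ContinuousOn.intervalIntegrable
      rw [Set.uIcc_of_le hE]
      apply ContinuousOn.div
      · exact (continuous_const.sub continuous_id).continuousOn
      · exact continuousOn_id
      · intro t ht
        have h3 : (1 : ℝ) ≤ t := ht.1
        exact (lt_of_lt_of_le one_pos h3).ne'
    · exact (continuous_const.sub continuous_id).intervalIntegrable _ _
    · intro t ht
      have h2 : 0 ≤ E + c - t := by linarith [ht.2]
      exact div_le_self h2 ht.1
  have h2 : ∫ t in (1 : ℝ)..E, (E + c - t) = (E - 1) ^ 2 / 2 + c * (E - 1) := by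
    have h3 : IntervalIntegrable (fun t : ℝ => t) MeasureTheory.volume 1 E :=
      continuous_id.intervalIntegrable _ _
    rw [intervalIntegral.integral_sub (continuous_const.intervalIntegrable _ _) h3,
      intervalIntegral.integral_const, integral_id, smul_eq_mul]
    ring
  linarith

/-- the inner sum -/
theorem TRI_inner (C₁ : ℝ)
    (hC : ∀ a b : ℝ, 2 ≤ a → a ≤ b →
      ∑ p ∈ (Icc 1 ⌊b⌋₊).filter (fun p : ℕ => p.Prime ∧ a ≤ (p : ℝ)), 1 / (p : ℝ) ≤
        Real.log (Real.log b / Real.log a) + C₁ / Real.log a)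
    (y W : ℝ) (hy : 3 ≤ y) (p : ℕ) (hp : y ≤ (p : ℝ)) (hpW : (p : ℝ) * y ≤ W) :
    ∑ p' ∈ (Icc 1 ⌊W⌋₊).filter (fun p' : ℕ => p'.Prime ∧ y ≤ (p' : ℝ) ∧ (p : ℝ) * p' ≤ W),
      1 / ((p : ℝ) * p') ≤
    ((Real.log W / Real.log y - 1) + C₁ / Real.log y - Real.log p / Real.log y) / (p : ℝ) := by
  have hy0 : 0 < y := by linarith
  have hp0 : (0 : ℝ) < p := by linarith
  have hW0 : 0 < W := lt_of_lt_of_le (mul_pos hp0 hy0) hpW
  have hL : 0 < Real.log y := Real.log_pos (by linarith)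
  have hle : y ≤ W / p := by
    rw [le_div_iff₀ hp0]
    linarith
  have h1 : ∑ p' ∈ (Icc 1 ⌊W⌋₊).filter
      (fun p' : ℕ => p'.Prime ∧ y ≤ (p' : ℝ) ∧ (p : ℝ) * p' ≤ W), 1 / ((p : ℝ) * p') ≤
      ∑ p' ∈ (Icc 1 ⌊W / p⌋₊).filter (fun p' : ℕ => p'.Prime ∧ y ≤ (p' : ℝ)),
        1 / ((p : ℝ) * p') := by
    apply Finset.sum_le_sum_of_subset_of_nonneg
    · intro p' hp'
      rw [Finset.mem_filter, Finset.mem_Icc] at hp' ⊢
      obtain ⟨⟨h1, -⟩, h3, h4, h5⟩ := hp'
      refine ⟨⟨h1, ?_⟩, h3, h4⟩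
      apply Nat.le_floor
      rw [le_div_iff₀ hp0]
      linarith
    · intro p' _ _
      positivity
  have h2 : ∑ p' ∈ (Icc 1 ⌊W / p⌋₊).filter (fun p' : ℕ => p'.Prime ∧ y ≤ (p' : ℝ)),
        1 / ((p : ℝ) * p') =
      (∑ p' ∈ (Icc 1 ⌊W / p⌋₊).filter (fun p' : ℕ => p'.Prime ∧ y ≤ (p' : ℝ)),
        1 / (p' : ℝ)) / (p : ℝ) := by
    rw [Finset.sum_div]
    apply Finset.sum_congr rfl
    intro p' _
    rw [div_div, mul_comm]
  have h3 := hC y (W / p) (by linarith) hle
  have h4 : Real.log (Real.log (W / p) / Real.log y) ≤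
      (Real.log W / Real.log y - 1) - Real.log p / Real.log y := by
    have h5 : 0 < Real.log (W / p) / Real.log y := by
      apply div_pos _ hL
      exact lt_of_lt_of_le hL (Real.log_le_log hy0 hle)
    have h6 := Real.log_le_sub_one_of_pos h5
    have h7 : Real.log (W / p) / Real.log y = Real.log W / Real.log y - Real.log p / Real.log y := by
      rw [Real.log_div hW0.ne' hp0.ne', sub_div]
    rw [h7] at h6 ⊢
    linarith
  refine h1.trans ?_
  rw [h2]
  apply div_le_div_of_nonneg_right _ hp0.le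
  linarith

theorem TRI (hMER : MER_stmt) (hMAB : MAB_stmt) : TRI_stmt := by
  obtain ⟨C₁, hC₁, h1⟩ := hMER
  obtain ⟨C₂, hC₂, h2⟩ := hMAB
  refine ⟨2 * C₁ + C₂ * (2 + C₁), by positivity, ?_⟩
  intro y W hy hW
  have hy0 : 0 < y := by linarith
  have hL1 : 1 ≤ Real.log y := by
    rw [Real.le_log_iff_exp_le hy0]
    have := Real.exp_one_lt_d9
    linarith
  have hL : 0 < Real.log y := by linarith
  have hr0 : 0 ≤ (2 * C₁ + C₂ * (2 + C₁)) / Real.log y := by positivity
  -- the inner sums with `p y > W` are empty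
  have hempty : ∀ p : ℕ, y ≤ (p : ℝ) → ¬ (p : ℝ) * y ≤ W →
      ∑ p' ∈ (Icc 1 ⌊W⌋₊).filter (fun p' : ℕ => p'.Prime ∧ y ≤ (p' : ℝ) ∧ (p : ℝ) * p' ≤ W),
        1 / ((p : ℝ) * p') = 0 := by
    intro p hp hpW
    apply Finset.sum_eq_zero
    intro p' hp'
    rw [Finset.mem_filter] at hp'
    obtain ⟨-, -, h4, h5⟩ := hp'
    exfalso
    apply hpW
    have hp0 : (0 : ℝ) ≤ p := by linarith
    exact (mul_le_mul_of_nonneg_left h4 hp0).trans h5
  by_cases hWy : W < y * y
  · have h0 : ∑ p ∈ (Icc 1 ⌊W⌋₊).filter (fun p : ℕ => p.Prime ∧ y ≤ (p : ℝ)),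
        ∑ p' ∈ (Icc 1 ⌊W⌋₊).filter (fun p' : ℕ => p'.Prime ∧ y ≤ (p' : ℝ) ∧ (p : ℝ) * p' ≤ W),
          1 / ((p : ℝ) * p') = 0 := by
      apply Finset.sum_eq_zero
      intro p hp
      rw [Finset.mem_filter] at hp
      apply hempty p hp.2.2
      intro h
      have h3 := mul_le_mul_of_nonneg_right hp.2.2 hy0.le
      linarith
    rw [h0]
    positivity
  · push Not at hWy
    have hW0 : 0 < W := lt_of_lt_of_le (mul_pos hy0 hy0) hWy
    have hlW : 2 * Real.log y ≤ Real.log W := by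
      have := Real.log_le_log (mul_pos hy0 hy0) hWy
      rw [Real.log_mul hy0.ne' hy0.ne'] at this
      linarith
    have hlW4 : Real.log W ≤ 4 * Real.log y := by
      have := Real.log_le_log hW0 hW
      rw [Real.log_pow] at this
      exact_mod_cast this
    obtain ⟨E, hE⟩ : ∃ E : ℝ, E = Real.log W / Real.log y - 1 := ⟨_, rfl⟩
    have hE1 : 1 ≤ E := by
      rw [hE, le_sub_iff_add_le, le_div_iff₀ hL]
      linarith
    have hE3 : E ≤ 3 := by
      rw [hE, sub_le_iff_le_add, div_le_iff₀ hL]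
      linarith
    obtain ⟨c, hc⟩ : ∃ c : ℝ, c = C₁ / Real.log y := ⟨_, rfl⟩
    have hc0 : 0 ≤ c := by rw [hc]; positivity
    have hcC : c ≤ C₁ := by
      rw [hc]
      exact div_le_self hC₁.le hL1
    have hexpE : Real.exp (E * Real.log y) = W / y := by
      rw [hE, sub_mul, div_mul_cancel₀ _ hL.ne', one_mul, Real.exp_sub, Real.exp_log hW0,
        Real.exp_log hy0]
    have hexp1 : Real.exp (1 * Real.log y) = y := by rw [one_mul, Real.exp_log hy0]
    have hF0 : ∀ t ∈ Set.Icc (1 : ℝ) E, 0 ≤ (fun t : ℝ => E + c - t) t := by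
      intro t ht
      have := ht.2
      show 0 ≤ E + c - t
      linarith
    have h3 := h2 1 E (Real.log y) (fun t => E + c - t) one_pos hE1 (by rw [one_mul]; exact hL1)
      (by
        intro s _ t _ hst
        show E + c - t ≤ E + c - s
        linarith) hF0
    rw [hexpE, hexp1] at h3
    -- the comparison
    have h4 : ∑ p ∈ (Icc 1 ⌊W⌋₊).filter (fun p : ℕ => p.Prime ∧ y ≤ (p : ℝ)),
        ∑ p' ∈ (Icc 1 ⌊W⌋₊).filter (fun p' : ℕ => p'.Prime ∧ y ≤ (p' : ℝ) ∧ (p : ℝ) * p' ≤ W),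
          1 / ((p : ℝ) * p') ≤
        ∑ p ∈ (Icc 1 ⌊W / y⌋₊).filter (fun p : ℕ => p.Prime ∧ y ≤ (p : ℝ)),
          (E + c - Real.log p / Real.log y) / (p : ℝ) := by
      rw [← Finset.sum_filter_add_sum_filter_not ((Icc 1 ⌊W⌋₊).filter
        (fun p : ℕ => p.Prime ∧ y ≤ (p : ℝ))) (fun p : ℕ => (p : ℝ) * y ≤ W)]
      have h5 : ∑ p ∈ ((Icc 1 ⌊W⌋₊).filter (fun p : ℕ => p.Prime ∧ y ≤ (p : ℝ))).filter
          (fun p : ℕ => ¬ (p : ℝ) * y ≤ W),
          ∑ p' ∈ (Icc 1 ⌊W⌋₊).filter (fun p' : ℕ => p'.Prime ∧ y ≤ (p' : ℝ) ∧ (p : ℝ) * p' ≤ W),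
            1 / ((p : ℝ) * p') = 0 := by
        apply Finset.sum_eq_zero
        intro p hp
        rw [Finset.mem_filter, Finset.mem_filter] at hp
        exact hempty p hp.1.2.2 hp.2
      rw [h5, add_zero]
      have hsub : ((Icc 1 ⌊W⌋₊).filter (fun p : ℕ => p.Prime ∧ y ≤ (p : ℝ))).filter
          (fun p : ℕ => (p : ℝ) * y ≤ W) ⊆
          (Icc 1 ⌊W / y⌋₊).filter (fun p : ℕ => p.Prime ∧ y ≤ (p : ℝ)) := by
        intro p hp
        rw [Finset.mem_filter, Finset.mem_filter, Finset.mem_Icc] at hp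
        rw [Finset.mem_filter, Finset.mem_Icc]
        refine ⟨⟨hp.1.1.1, ?_⟩, hp.1.2⟩
        apply Nat.le_floor
        rw [le_div_iff₀ hy0]
        exact hp.2
      refine (Finset.sum_le_sum (fun p hp => ?_)).trans
        (Finset.sum_le_sum_of_subset_of_nonneg hsub ?_)
      · rw [Finset.mem_filter, Finset.mem_filter] at hp
        have h6 := TRI_inner C₁ h1 y W hy p hp.1.2.2 hp.2
        rw [← hE, ← hc] at h6
        exact h6
      · intro p hp _
        rw [Finset.mem_filter, Finset.mem_Icc] at hp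
        have hp0 : (0 : ℝ) < p := by linarith [hp.2.2]
        apply div_nonneg _ hp0.le
        have h7 : (p : ℝ) ≤ W / y := by
          have h8 : (0 : ℝ) ≤ W / y := by positivity
          exact (Nat.cast_le.2 hp.1.2).trans (Nat.floor_le h8)
        have h9 : Real.log p ≤ Real.log W - Real.log y := by
          rw [← Real.log_div hW0.ne' hy0.ne']
          exact Real.log_le_log hp0 h7
        have h10 : Real.log p / Real.log y ≤ E := by
          rw [hE, div_le_iff₀ hL, sub_mul, div_mul_cancel₀ _ hL.ne', one_mul]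
          exact h9
        linarith
    have h5 := TRI_int E c hE1 hc0
    have h6 : C₂ * (E + c - 1) / (1 * Real.log y) ≤ C₂ * (2 + C₁) / Real.log y := by
      rw [one_mul]
      apply div_le_div_of_nonneg_right _ hL.le
      apply mul_le_mul_of_nonneg_left _ hC₂.le
      linarith
    have h7 : c * (E - 1) ≤ 2 * C₁ / Real.log y := by
      have h8 : c * (E - 1) ≤ c * 2 := mul_le_mul_of_nonneg_left (by linarith) hc0
      have h9 : c * 2 = 2 * C₁ / Real.log y := by rw [hc]; ring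
      linarith
    have h8 : max 0 (Real.log W / Real.log y - 2) = E - 1 := by
      rw [max_eq_right]
      · rw [hE]; ring
      · have : Real.log W / Real.log y - 2 = E - 1 := by rw [hE]; ring
        rw [this]
        linarith
    rw [h8, add_div]
    have h3' : ∑ p ∈ (Icc 1 ⌊W / y⌋₊).filter (fun p : ℕ => p.Prime ∧ y ≤ (p : ℝ)),
          (E + c - Real.log p / Real.log y) / (p : ℝ) ≤
        (∫ t in (1 : ℝ)..E, (E + c - t) / t) + C₂ * (E + c - 1) / (1 * Real.log y) := h3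
    linarith

end Pool.Agent.CH
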